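import Mathlib
import Pool.Agent.Lib.helper17.ModReg

set_option autoImplicit false

namespace Pool.Agent.Results.MP_aae45c_an.Counter

open Filter Topology ENNReal

/-- The modular. -/
noncomputable def rho (p a : ℕ → ℝ) : ℝ≥0∞ := ∑' j, ENNReal.ofReal (|a j| ^ p j)

/-- The variable exponent sequence space. -/
def L (p : ℕ → ℝ) : Set (ℕ → ℝ) := {a | ∃ l : ℝ, 0 < l ∧ rho p (l • a) < ⊤}

/-- Modularly closed subsets of the space. -/
def RhoClosed (p : ℕ → ℝ) (F : Set (L p)) : Prop :=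
  ∀ (x : ℕ → L p) (w : L p), (∀ k, x k ∈ F) →
    Tendsto (fun k => rho p ((x k).1 - w.1)) atTop (𝓝 0) → w ∈ F

theorem result : ∃ p : ℕ → ℝ, (∀ n, 1 ≤ p n) ∧ ∃ (x : L p) (F : Set (L p)), RhoClosed p F ∧
    x ∉ F ∧ ∀ U V : Set (L p), RhoClosed p Uᶜ → RhoClosed p Vᶜ → x ∈ U → F ⊆ V →
      (U ∩ V).Nonempty := by
  have e : rho (fun n => ((n + 1 : ℕ) : ℝ)) = H17ModReg.rho := funext fun a => by
    simp only [rho, H17ModReg.rho, Real.rpow_natCast]
  exact ⟨fun n => ((n + 1 : ℕ) : ℝ), fun n => by simp, H17ModReg.main _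
    (fun a h => by rwa [← e] at h) _ fun F => by rw [RhoClosed, e]⟩

end Pool.Agent.Results.MP_aae45c_an.Counter
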